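import Mathlib
import Pool.Agent.Run7.h402.PT.C3

/-!
# Lower bounds for the number of sifted integers, general conditions
-/

set_option autoImplicit false

namespace Run7.h402.PV

open Finset
open Pool.Agent.H373R2.T7
open Run7.h402.PT (zl zl_le zl_one Vz_scale bern grow)

noncomputable section

/-- the singular product is not too small -/
theorem sing_lowG (κ z : ℕ) (ν : ℕ → ℕ) (h1 : ∀ p ∈ pz z, ν p ≤ κ) (h2 : ∀ p ∈ pz z, ν p + 1 ≤ p) :
    (1 / 4 : ℝ) ^ (2 * κ) * Vz z ^ (2 * κ) ≤ ∏ p ∈ pz z, (1 - (ν p : ℝ) / p) := by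
  have h1 : ∏ p ∈ pz z, ((if p ≤ 2 * κ then 1 / (p : ℝ) else 1) * (1 - 1 / (p : ℝ)) ^ (2 * κ)) ≤ ∏ p ∈ pz z, (1 - (ν p : ℝ) / p) := by
    apply prod_le_prod
    · intro p hp
      have hp2 : (2 : ℝ) ≤ p := by exact_mod_cast (mem_pz.1 hp).2.two_le
      apply mul_nonneg
      · split_ifs
        · positivity
        · norm_num
      · apply pow_nonneg
        rw [sub_nonneg, div_le_one (by linarith)]
        linarith
    · intro p hp
      have hpp := (mem_pz.1 hp).2
      have hp2 : (2 : ℝ) ≤ p := by exact_mod_cast hpp.two_le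
      have hp0 : (0 : ℝ) < p := by linarith
      split_ifs with h
      · have h3 : (ν p : ℝ) + 1 ≤ p := by exact_mod_cast h2 p hp
        have h4 : 1 / (p : ℝ) ≤ 1 - (ν p : ℝ) / p := by
          rw [le_sub_iff_add_le, ← add_div, div_le_one hp0]
          linarith
        have h5 : (1 - 1 / (p : ℝ)) ^ (2 * κ) ≤ 1 := by
          apply pow_le_one₀
          · rw [sub_nonneg, div_le_one hp0]; linarith
          · have : 0 ≤ 1 / (p : ℝ) := by positivity
            linarith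
        calc 1 / (p : ℝ) * (1 - 1 / (p : ℝ)) ^ (2 * κ) ≤ 1 / (p : ℝ) * 1 := mul_le_mul_of_nonneg_left h5 (by positivity)
          _ ≤ _ := by rw [mul_one]; exact h4
      · push Not at h
        rw [one_mul]
        have h2 : ((2 * κ : ℕ) : ℝ) < p := by exact_mod_cast h
        push_cast at h2
        have h3 := bern κ (1 / (p : ℝ)) (by positivity) (by
          rw [mul_one_div, div_le_one hp0]; exact h2.le)
        refine h3.trans ?_
        have h4 : (ν p : ℝ) ≤ κ := by exact_mod_cast h1 p hp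
        have h5 : (ν p : ℝ) / p ≤ κ * (1 / (p : ℝ)) := by
          rw [mul_one_div]
          exact div_le_div_of_nonneg_right h4 hp0.le
        linarith
  refine le_trans ?_ h1
  rw [prod_mul_distrib, prod_pow]
  have h2 : (1 / 4 : ℝ) ^ (2 * κ) ≤ ∏ p ∈ pz z, (if p ≤ 2 * κ then 1 / (p : ℝ) else 1) := by
    rw [← prod_filter]
    have h3 : ∏ p ∈ (pz z).filter (fun p => p ≤ 2 * κ), p ≤ 4 ^ (2 * κ) := by
      refine le_trans ?_ (primorial_le_four_pow (2 * κ))
      unfold primorial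
      apply prod_le_prod_of_subset_of_one_le'
      · intro p hp
        rw [mem_filter, mem_pz] at hp
        rw [mem_filter, mem_range]
        exact ⟨by omega, hp.1.2⟩
      · intro p hp _
        rw [mem_filter] at hp
        exact hp.2.one_le
    have h4 : ∏ p ∈ (pz z).filter (fun p => p ≤ 2 * κ), (1 / (p : ℝ)) = 1 / ((∏ p ∈ (pz z).filter (fun p => p ≤ 2 * κ), p : ℕ) : ℝ) := by
      rw [prod_div_distrib, prod_const_one]
      push_cast
      rfl
    rw [h4, one_div_pow]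
    apply one_div_le_one_div_of_le
    · exact_mod_cast Nat.pos_of_ne_zero (prod_ne_zero_iff.2 fun p hp => (mem_pz.1 (mem_filter.1 hp).1).2.ne_zero)
    · exact_mod_cast h3
  apply mul_le_mul h2 (le_of_eq rfl) (pow_nonneg (Vz_pos z).le _)
  apply prod_nonneg
  intro p _
  split_ifs
  · positivity
  · norm_num

/-- the pure sieve for general conditions -/
theorem multi_sieveG (κ : ℕ) (hκ : 1 ≤ κ) (A : ℕ → ℕ → Prop) [∀ p n, Decidable (A p n)] (hA : ∀ p n, A p (n % p) ↔ A p n)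
    (H z r : ℕ) (hz : 1 ≤ z) (hν : ∀ p ∈ pz z, ((range p).filter (fun b => A p b)).card ≤ κ) :
    |((((Icc 1 H).filter (fun n => ∀ p ∈ pz z, ¬ A p n)).card : ℕ) : ℝ) -
        H * ∏ p ∈ pz z, (1 - (((range p).filter (fun b => A p b)).card : ℝ) / p)| ≤
      (((z : ℝ) + 1) * κ) ^ r + 2 * H * Real.exp (3 * (κ * (1 + Real.log z)) - r) := by
  have hκ1 : (1 : ℝ) ≤ κ := by exact_mod_cast hκ
  have key := sieve_gen' (Icc 1 H) (fun _ => (1 : ℝ)) (fun _ _ => zero_le_one)
    (fun p n => A p n) (pz z) (fun p => (((range p).filter (fun b => A p b)).card : ℝ) / p) (fun p hp => by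
      have hpp := (mem_pz.1 hp).2
      have hp0 : (0 : ℝ) < p := by exact_mod_cast hpp.pos
      constructor
      · positivity
      · rw [div_le_one hp0]
        have : ((range p).filter (fun b => A p b)).card ≤ p := by
          refine (card_filter_le _ _).trans ?_
          rw [card_range]
        exact_mod_cast this) (H : ℝ) (by positivity) (fun _ => (κ : ℝ) ^ r) r (by
      intro S hS hSr
      have hSp : ∀ p ∈ S, p.Prime := fun p hp => (mem_pz.1 (hS hp)).2
      have h := count_sys (fun p b => A p b) H S hSp 1 le_rfl (fun p hp => by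
        intro h1
        exact (hSp p hp).one_lt.ne' (Nat.dvd_one.1 h1)) 0
      have h3 : ∑ i ∈ (Icc 1 H) with ∀ p ∈ S, A p i, (1 : ℝ) =
          (((Icc 1 H).filter (fun n => n ≡ 0 [MOD 1] ∧ ∀ p ∈ S, A p (n % p))).card : ℝ) := by
        rw [sum_const, nsmul_eq_mul, mul_one]
        congr 2
        apply filter_congr
        intro n _
        simp only [hA, Nat.modEq_one, true_and]
      rw [h3]
      rw [Nat.cast_one, div_one] at h
      refine h.trans ?_
      calc ∏ p ∈ S, (((range p).filter (fun b => A p b)).card : ℝ) ≤ ∏ _p ∈ S, (κ : ℝ) := by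
            apply prod_le_prod (fun _ _ => by positivity)
            intro p hp
            exact_mod_cast hν p (hS hp)
        _ = (κ : ℝ) ^ S.card := by rw [prod_const]
        _ ≤ (κ : ℝ) ^ r := pow_le_pow_right₀ hκ1 hSr)
  have e2 : ∑ i ∈ (Icc 1 H) with ∀ p ∈ pz z, ¬ A p i, (1 : ℝ) =
      ((((Icc 1 H).filter (fun n => ∀ p ∈ pz z, ¬ A p n)).card : ℕ) : ℝ) := by
    rw [sum_const, nsmul_eq_mul, mul_one]
  rw [e2] at key
  refine key.trans ?_
  have h4 : ∑ j ∈ range (r + 1), ∑ S ∈ (pz z).powersetCard j, (κ : ℝ) ^ r ≤ (((z : ℝ) + 1) * κ) ^ r := by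
    have h5 := card_small (pz z) r
    have h6 : ∑ j ∈ range (r + 1), ∑ S ∈ (pz z).powersetCard j, (κ : ℝ) ^ r = ((∑ j ∈ range (r + 1), ((pz z).powersetCard j).card : ℕ) : ℝ) * (κ : ℝ) ^ r := by
      push_cast
      rw [sum_mul]
      apply sum_congr rfl
      intro j _
      rw [sum_const, nsmul_eq_mul]
    rw [h6, mul_pow]
    apply mul_le_mul_of_nonneg_right _ (by positivity)
    refine h5.trans ?_
    have h7 : ((pz z).card : ℝ) ≤ z := by exact_mod_cast (card_pz_le z)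
    gcongr
  have h5 : es (fun p => (((range p).filter (fun b => A p b)).card : ℝ) / p) (pz z) r ≤ Real.exp (3 * (κ * (1 + Real.log z)) - r) := by
    refine (es_le (fun p _ => by positivity) r).trans ?_
    apply Real.exp_le_exp.2
    have h6 : ∑ p ∈ pz z, (((range p).filter (fun b => A p b)).card : ℝ) / p ≤ κ * ∑ p ∈ pz z, 1 / (p : ℝ) := by
      rw [mul_sum]
      apply sum_le_sum
      intro p hp
      rw [mul_one_div]
      apply div_le_div_of_nonneg_right _ (Nat.cast_nonneg _)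
      exact_mod_cast hν p hp
    have h7 : (κ : ℝ) * ∑ p ∈ pz z, 1 / (p : ℝ) ≤ κ * (1 + Real.log z) := mul_le_mul_of_nonneg_left (sum_pz_le z) (by positivity)
    linarith
  have h8 : 0 ≤ es (fun p => (((range p).filter (fun b => A p b)).card : ℝ) / p) (pz z) r := es_nonneg (fun p _ => by positivity) r
  have h7 : 2 * (H : ℝ) * es (fun p => (((range p).filter (fun b => A p b)).card : ℝ) / p) (pz z) r ≤
      2 * H * Real.exp (3 * (κ * (1 + Real.log z)) - r) := by
    gcongr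
  linarith

/-- many integers outside the forbidden classes -/
theorem rough_lowG (ε : ℝ) (hε : 0 < ε) (hε1 : ε ≤ 1) : ∃ l0 : ℝ, ∀ l : ℝ, l0 ≤ l → ∀ H : ℕ, Real.exp (l ^ 23) ≤ H →
    ∀ κ : ℕ, 1 ≤ κ → (κ : ℝ) ≤ l ^ (12 / 25 : ℝ) → ∀ (A : ℕ → ℕ → Prop) (_ : ∀ p n, Decidable (A p n)), (∀ p n, A p (n % p) ↔ A p n) →
      (∀ p ∈ pz (zl l), ((range p).filter (fun b => A p b)).card ≤ κ) →
      (∀ p ∈ pz (zl l), ((range p).filter (fun b => A p b)).card + 1 ≤ p) →
      H * Real.exp (-(ε * √l)) ≤ ((((Icc 1 H).filter (fun n => ∀ p ∈ pz (zl l), ¬ A p n)).card : ℕ) : ℝ) := by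
  obtain ⟨C, hC1, hV⟩ := Vz_scale
  obtain ⟨l1, h1⟩ := grow (16 * C ^ 2) (ε / 2) (by nlinarith) (by positivity)
  refine ⟨max l1 (max 100000000 ((100 / ε) ^ 2)), fun l hl H hH κ hκ1 hκl A _ hA hν1 hν2 => ?_⟩
  have hl1 : l1 ≤ l := (le_max_left _ _).trans hl
  have hl8 : 100000000 ≤ l := ((le_max_left _ _).trans (le_max_right _ _)).trans hl
  have hle : (100 / ε) ^ 2 ≤ l := ((le_max_right _ _).trans (le_max_right _ _)).trans hl
  have hl0 : 0 < l := by linarith
  have hlone : 1 ≤ l := by linarith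
  obtain ⟨g1, _, g3⟩ := h1 l hl1 κ hκl
  have hV := hV l (by linarith)
  set s := √l with hs
  have hs0 : 0 < s := Real.sqrt_pos.2 hl0
  have hss : s * s = l := Real.mul_self_sqrt hl0.le
  have hs4 : 10000 ≤ s := by
    apply Real.le_sqrt_of_sq_le
    norm_num
    exact hl8
  have hsε : 100 ≤ ε * s := by
    have h2 : 100 / ε ≤ s := Real.le_sqrt_of_sq_le hle
    rw [div_le_iff₀ hε] at h2
    linarith
  have hεs : ε * s ≤ s := by nlinarith
  have hH0 : (0 : ℝ) < H := (Real.exp_pos _).trans_le hH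
  set z := zl l with hz
  have hz1 : 1 ≤ z := zl_one l hl0.le
  have hz1r : (1 : ℝ) ≤ z := by exact_mod_cast hz1
  have hzl : (z : ℝ) ≤ Real.exp l := zl_le l
  have hlz : Real.log z ≤ l := by
    rw [Real.log_le_iff_le_exp (by linarith)]; exact hzl
  set r : ℕ := ⌈l ^ 2⌉₊ with hr
  have hr1 : l ^ 2 ≤ r := Nat.le_ceil _
  have hr2 : (r : ℝ) ≤ l ^ 2 + 1 := (Nat.ceil_lt_add_one (by positivity)).le
  have key := multi_sieveG κ hκ1 A hA H z r hz1 hν1
  set E := ∏ p ∈ pz z, (1 - (((range p).filter (fun b => A p b)).card : ℝ) / p) with hE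
  have hElow : Real.exp (-(ε / 2 * s)) ≤ E := by
    refine le_trans ?_ (sing_lowG κ z _ hν1 hν2)
    have h2 : 1 / (C * l ^ 2) ≤ Vz z := by
      rw [div_le_iff₀ (by positivity)]
      have := (inv_le_iff_one_le_mul₀ (Vz_pos z)).1 hV
      linarith
    have h3 : (1 / 4 : ℝ) ^ (2 * κ) * (1 / (C * l ^ 2)) ^ (2 * κ) ≤ (1 / 4 : ℝ) ^ (2 * κ) * Vz z ^ (2 * κ) := by
      gcongr
    refine le_trans ?_ h3
    have h4 : (1 / 4 : ℝ) ^ (2 * κ) * (1 / (C * l ^ 2)) ^ (2 * κ) = 1 / (16 * C ^ 2 * l ^ 4) ^ κ := by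
      rw [← mul_pow, pow_mul, ← one_div_pow]
      congr 1
      field_simp
      norm_num
    rw [h4, Real.exp_neg, ← one_div]
    apply one_div_le_one_div_of_le (by positivity)
    calc (16 * C ^ 2 * l ^ 4) ^ κ ≤ (16 * C ^ 2 * l ^ 50) ^ κ := by
          have : l ^ 4 ≤ l ^ 50 := pow_le_pow_right₀ hlone (by norm_num)
          gcongr
      _ ≤ Real.exp (ε / 2 * s) := g1
  have hκe : (κ : ℝ) ≤ Real.exp l := by
    have h2 : s ≤ l := by nlinarith
    have h3 := Real.add_one_le_exp l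
    linarith
  have err1 : (((z : ℝ) + 1) * κ) ^ r * 8 ≤ H * Real.exp (-(ε / 2 * s)) := by
    have h8e : (8 : ℝ) ≤ Real.exp 7 := by
      have := Real.add_one_le_exp (7 : ℝ)
      linarith
    have hz1e : (z : ℝ) + 1 ≤ Real.exp (l + 1) := by
      rw [Real.exp_add]
      have h6 := Real.add_one_le_exp (1 : ℝ)
      have h7 : 1 ≤ Real.exp l := Real.one_le_exp hl0.le
      nlinarith
    have h2 : ((z : ℝ) + 1) * κ ≤ Real.exp (2 * l + 1) := by
      calc ((z : ℝ) + 1) * κ ≤ Real.exp (l + 1) * Real.exp l := by gcongr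
        _ = Real.exp (2 * l + 1) := by rw [← Real.exp_add]; congr 1; ring
    have hpoly : (2 * l + 1) * (l ^ 2 + 1) + 7 + l ≤ l ^ 23 := by
      have h7 : l ^ 5 ≤ l ^ 23 := pow_le_pow_right₀ hlone (by norm_num)
      have h8 : (2 * l + 1) * (l ^ 2 + 1) + 7 + l ≤ l ^ 5 := by
        have a1 : 8 * l ≤ l ^ 2 := by nlinarith
        have a2 : 8 * l ^ 2 ≤ l ^ 3 := by nlinarith [sq_nonneg l]
        have a3 : 8 * l ^ 3 ≤ l ^ 4 := by nlinarith [pow_pos hl0 3]
        have a4 : 8 * l ^ 4 ≤ l ^ 5 := by nlinarith [pow_pos hl0 4]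
        nlinarith
      exact h8.trans h7
    calc (((z : ℝ) + 1) * κ) ^ r * 8 ≤ Real.exp (2 * l + 1) ^ r * Real.exp 7 := by gcongr
      _ = Real.exp (r * (2 * l + 1) + 7) := by rw [← Real.exp_nat_mul, ← Real.exp_add]
      _ ≤ Real.exp (l ^ 23 + -(ε / 2 * s)) := by
          apply Real.exp_le_exp.2
          have h9 : (r : ℝ) * (2 * l + 1) ≤ (l ^ 2 + 1) * (2 * l + 1) := by gcongr
          have h10 : ε / 2 * s ≤ l := by nlinarith
          linarith
      _ = Real.exp (l ^ 23) * Real.exp (-(ε / 2 * s)) := Real.exp_add _ _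
      _ ≤ H * Real.exp (-(ε / 2 * s)) := by gcongr
  have err2 : 2 * H * Real.exp (3 * (κ * (1 + Real.log z)) - r) * 8 ≤ H * Real.exp (-(ε / 2 * s)) := by
    have h2 : 3 * ((κ : ℝ) * (1 + Real.log z)) - r ≤ -(ε / 2 * s) - 10 := by
      have h3 : (κ : ℝ) * (1 + Real.log z) ≤ s * (1 + l) := by gcongr
      have h4 : s ≤ l / 10000 := by
        rw [le_div_iff₀ (by norm_num)]
        calc s * 10000 ≤ s * s := by gcongr
          _ = l := hss
      have h5 : ε / 2 * s ≤ s := by linarith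
      have h6 : s * (1 + l) ≤ l / 10000 * (l + l) := by gcongr
      have h7 : l / 10000 * (l + l) = l ^ 2 / 5000 := by ring
      have h8 : l * 100000000 ≤ l ^ 2 := by
        rw [pow_two]
        gcongr
      linarith
    have h16 : (16 : ℝ) ≤ Real.exp 10 := by
      have h5 : Real.exp 10 = Real.exp 5 * Real.exp 5 := by rw [← Real.exp_add]; norm_num
      have h6 := Real.add_one_le_exp (5 : ℝ)
      rw [h5]; nlinarith
    calc 2 * H * Real.exp (3 * (κ * (1 + Real.log z)) - r) * 8 ≤ 2 * H * Real.exp (-(ε / 2 * s) - 10) * 8 := by gcongr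
      _ = H * (16 * Real.exp (-(ε / 2 * s) - 10)) := by ring
      _ ≤ H * (Real.exp 10 * Real.exp (-(ε / 2 * s) - 10)) := by gcongr
      _ = H * Real.exp (-(ε / 2 * s)) := by rw [← Real.exp_add]; congr 2; ring
  have h2 := (abs_le.1 key).1
  have h3 : H * Real.exp (-(ε / 2 * s)) ≤ H * E := by gcongr
  have h4 : H * Real.exp (-(ε / 2 * s)) * (3 / 4) ≤ ((((Icc 1 H).filter (fun n => ∀ p ∈ pz z, ¬ A p n)).card : ℕ) : ℝ) := by
    linarith
  refine le_trans ?_ h4
  have h6 : Real.exp (-(ε * s)) = Real.exp (-(ε / 2 * s)) * Real.exp (-(ε / 2 * s)) := by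
    rw [← Real.exp_add]; congr 1; ring
  have h7 : Real.exp (-(ε / 2 * s)) ≤ 1 / 2 := by
    rw [Real.exp_neg, inv_le_comm₀ (Real.exp_pos _) (by norm_num)]
    have := Real.add_one_le_exp (ε / 2 * s)
    norm_num
    linarith
  have h8 : 0 < Real.exp (-(ε / 2 * s)) := Real.exp_pos _
  rw [h6]
  have h9 : Real.exp (-(ε / 2 * s)) * Real.exp (-(ε / 2 * s)) ≤ Real.exp (-(ε / 2 * s)) * (3 / 4) := by
    apply mul_le_mul_of_nonneg_left _ h8.le
    linarith
  calc H * (Real.exp (-(ε / 2 * s)) * Real.exp (-(ε / 2 * s))) ≤ H * (Real.exp (-(ε / 2 * s)) * (3 / 4)) := by gcongr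
    _ = _ := by ring

/-- the correlations of the corrected model are not too small -/
theorem model_lowG (ε : ℝ) (hε : 0 < ε) (hε1 : ε ≤ 1) : ∃ l0 : ℝ, ∀ l : ℝ, l0 ≤ l → ∀ (Λ κ β : ℝ) (q1 : ℕ) (χ : DirichletCharacter ℂ q1),
    √l ≤ Λ → 0 ≤ κ → κ ≤ 1 → β < 1 → 1 / 2 ≤ β → χ ^ 2 = 1 →
    (κ = 0 ∨ (κ = 1 ∧ Λ = l / 8 ∧ Real.exp (-(2 * √l)) ≤ 1 - β)) →
    ∀ H : ℕ, Real.exp (l ^ 23) ≤ H → ∀ k d : ℕ, 1 ≤ k → 1 ≤ d → ((k * d : ℕ) : ℝ) ≤ l ^ (12 / 25 : ℝ) →
    ∀ m : Fin k → ℕ → ℕ, (∀ i n, 1 ≤ n → n ≤ H → 2 ≤ m i n) → (∀ i p n, p ∣ m i (n % p) ↔ p ∣ m i n) →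
      (∀ i, ∀ p ∈ pz (zl l), ((range p).filter (fun b => p ∣ m i b)).card ≤ d) →
      (∀ p ∈ pz (zl l), ∃ n : ℕ, ∀ i, ¬ p ∣ m i n) →
      H * Real.exp (-(ε * Λ)) ≤ ∑ n ∈ Icc 1 H, ∏ i, Run7.h402.PT.Gr l κ χ β (m i n) := by
  obtain ⟨l1, h1⟩ := rough_lowG (ε / 4) (by positivity) (by linarith)
  obtain ⟨l2, h2⟩ := grow 4 (ε / 32) (by norm_num) (by positivity)
  refine ⟨max (max l1 l2) 1, fun l hl Λ κ β q1 χ hΛ hκ0 hκ1 hβ hβh hχ hcase H hH k d hk1 hd1 hkl m hm2 hmp hmd hma => ?_⟩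
  have hl1 : l1 ≤ l := ((le_max_left _ _).trans (le_max_left _ _)).trans hl
  have hl2 : l2 ≤ l := ((le_max_right _ _).trans (le_max_left _ _)).trans hl
  have hlone : 1 ≤ l := (le_max_right _ _).trans hl
  have hkk : (k : ℝ) ≤ ((k * d : ℕ) : ℝ) := by exact_mod_cast Nat.le_mul_of_pos_right k hd1
  have g := h1 l hl1 H hH (k * d) (Nat.mul_pos hk1 hd1) hkl (fun p b => ∃ i, p ∣ m i b) (fun _ _ => inferInstance)
    (fun p n => by simp only [hmp])
    (fun p hp => by
      have e : (range p).filter (fun b => ∃ i, p ∣ m i b) ⊆ (univ : Finset (Fin k)).biUnion (fun i => (range p).filter (fun b => p ∣ m i b)) := by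
        intro b hb
        rw [mem_filter] at hb
        obtain ⟨hb1, i, hi⟩ := hb
        rw [mem_biUnion]
        exact ⟨i, mem_univ _, mem_filter.2 ⟨hb1, hi⟩⟩
      refine (card_le_card e).trans (card_biUnion_le.trans ?_)
      refine (sum_le_sum (fun i _ => hmd i p hp)).trans ?_
      rw [sum_const, card_univ, Fintype.card_fin, smul_eq_mul])
    (fun p hp => by
      obtain ⟨n, hn⟩ := hma p hp
      have hp0 : 0 < p := (mem_pz.1 hp).2.pos
      have e : (range p).filter (fun b => ∃ i, p ∣ m i b) ⊆ (range p).erase (n % p) := by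
        intro b hb
        rw [mem_filter] at hb
        obtain ⟨hb1, i, hi⟩ := hb
        rw [mem_erase]
        refine ⟨?_, hb1⟩
        intro h
        rw [h, hmp] at hi
        exact hn i hi
      have e2 := card_le_card e
      rw [card_erase_of_mem (mem_range.2 (Nat.mod_lt _ hp0)), card_range] at e2
      omega)
  obtain ⟨g1, g2, _⟩ := h2 l hl2 k (hkk.trans hkl)
  set s := √l with hs
  have hs0 : 0 ≤ s := Real.sqrt_nonneg _
  have hss : s * s = l := Real.mul_self_sqrt (by linarith)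
  have hs1 : 1 ≤ s := by
    apply Real.le_sqrt_of_sq_le
    linarith
  have hsl : s ≤ l := by nlinarith
  have hH0 : (0 : ℝ) < H := (Real.exp_pos _).trans_le hH
  set ρ : ℝ := if κ = 0 then 1 else Real.exp (-(2 * s)) / 4 with hρ
  have hρ0 : 0 < ρ := by
    rw [hρ]
    split_ifs <;> positivity
  have hρk : Real.exp (-(ε / 2 * Λ)) ≤ ρ ^ k := by
    rcases hcase with h | ⟨h, hΛ2, _⟩
    · rw [hρ, if_pos h, one_pow]
      rw [Real.exp_le_one_iff]
      have : 0 ≤ ε / 2 * Λ := by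
        have : 0 ≤ Λ := hs0.trans hΛ
        positivity
      linarith
    · have h3 : ρ = Real.exp (-(2 * s)) / 4 := by
        rw [hρ, if_neg (by rw [h]; norm_num)]
      have h4 : ρ ^ k = (Real.exp (2 * s * k))⁻¹ * ((4 : ℝ) ^ k)⁻¹ := by
        rw [h3, div_pow, ← Real.exp_nat_mul, ← Real.exp_neg, div_eq_mul_inv]
        congr 2
        ring
      have h5 : (4 : ℝ) ^ k ≤ Real.exp (ε / 32 * s) := by
        refine le_trans ?_ g1
        have : (1 : ℝ) ≤ l ^ 50 := one_le_pow₀ hlone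
        gcongr
        linarith
      rw [h4, ← mul_inv, Real.exp_neg]
      apply inv_anti₀ (by positivity)
      calc Real.exp (2 * s * k) * 4 ^ k ≤ Real.exp (ε / 32 * l) * Real.exp (ε / 32 * s) := by gcongr
        _ = Real.exp (ε / 32 * l + ε / 32 * s) := (Real.exp_add _ _).symm
        _ ≤ Real.exp (ε / 2 * Λ) := by
            apply Real.exp_le_exp.2
            rw [hΛ2]
            nlinarith
  set S := (Icc 1 H).filter (fun n => ∀ p ∈ pz (zl l), ¬ ∃ i, p ∣ m i n) with hS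
  have hcard : H * Real.exp (-(ε / 4 * s)) ≤ (S.card : ℝ) := g
  have hκ' : κ = 0 ∨ (κ = 1 ∧ Real.exp (-(2 * s)) ≤ 1 - β) := by
    rcases hcase with h | ⟨h, _, h'⟩
    · exact Or.inl h
    · exact Or.inr ⟨h, h'⟩
  have hpt : ∀ n ∈ S, ρ ^ k ≤ ∏ i, Run7.h402.PT.Gr l κ χ β (m i n) := by
    intro n hn
    rw [hS, mem_filter, mem_Icc] at hn
    have h3 : ∏ _i : Fin k, ρ ≤ ∏ i, Run7.h402.PT.Gr l κ χ β (m i n) := by
      apply prod_le_prod (fun _ _ => hρ0.le)
      intro i _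
      apply Run7.h402.PT.Gr_low l κ β χ hχ hβ hβh hκ' (m i n) (hm2 i n hn.1.1 hn.1.2)
      intro p hp hd
      exact hn.2 p hp ⟨i, hd⟩
    rwa [prod_const, card_univ, Fintype.card_fin] at h3
  have h3 : (S.card : ℝ) * ρ ^ k ≤ ∑ n ∈ Icc 1 H, ∏ i, Run7.h402.PT.Gr l κ χ β (m i n) := by
    calc (S.card : ℝ) * ρ ^ k = ∑ n ∈ S, ρ ^ k := by rw [sum_const, nsmul_eq_mul]
      _ ≤ ∑ n ∈ S, ∏ i, Run7.h402.PT.Gr l κ χ β (m i n) := sum_le_sum hpt
      _ ≤ _ := by
          apply sum_le_sum_of_subset_of_nonneg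
          · intro n hn
            exact (mem_filter.1 hn).1
          · intro n hn _
            rw [mem_Icc] at hn
            apply prod_nonneg
            intro i _
            exact (Run7.h402.PT.Gr_bounds l κ hκ0 hκ1 χ hχ β hβ.le (m i n) (by have := hm2 i n hn.1 hn.2; omega)).1
  refine le_trans ?_ h3
  calc H * Real.exp (-(ε * Λ)) ≤ H * (Real.exp (-(ε / 4 * s)) * Real.exp (-(ε / 2 * Λ))) := by
        rw [← Real.exp_add]
        gcongr
        nlinarith
    _ = (H * Real.exp (-(ε / 4 * s))) * Real.exp (-(ε / 2 * Λ)) := by ring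
    _ ≤ (S.card : ℝ) * ρ ^ k := by gcongr

end

end Run7.h402.PV
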