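import Mathlib
import Pool.Agent.H373R2.NB.WeylSum
import Pool.Agent.H373R2.T7.BilF

/-!
# Moments of Weyl sums, uniformly in the polynomial
-/

set_option autoImplicit false

namespace Run7.h402.PV

open Finset Polynomial
open Pool.Agent.H373R2.NB (Ph IW IW_all Ph_poly Ph_succ sum_Icc_one sort_sum)
open Pool.Agent.Helper602.MK (ee)

noncomputable section

/-- the inverse theorem with given constants -/
def IWc (d c m : ℕ) : Prop := ∀ (N : ℕ) (u α : ℝ) (φ : ℕ → ℝ), 1 ≤ N → 1 ≤ u → Ph d α φ →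
  (N : ℝ) ≤ u * ‖∑ n ∈ range N, ee (φ n)‖ →
  ∃ q : ℕ, 1 ≤ q ∧ (q : ℝ) ≤ c * u ^ m ∧ ∃ a : ℤ, |q * α - a| ≤ c * u ^ m / (N : ℝ) ^ d

theorem IWc_mono {d c m c' m' : ℕ} (hc : c ≤ c') (hm : m ≤ m') (h : IWc d c m) : IWc d c' m' := by
  intro N u α φ hN hu hφ hS
  obtain ⟨q, hq1, hq2, a, ha⟩ := h N u α φ hN hu hφ hS
  have h1 : (c : ℝ) * u ^ m ≤ c' * u ^ m' := by
    have hcr : (c : ℝ) ≤ c' := by exact_mod_cast hc
    have hur : u ^ m ≤ u ^ m' := pow_le_pow_right₀ hu hm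
    have : (0 : ℝ) ≤ u ^ m := by positivity
    have : (0 : ℝ) ≤ (c' : ℝ) := Nat.cast_nonneg _
    nlinarith
  refine ⟨q, hq1, hq2.trans h1, a, ha.trans ?_⟩
  exact div_le_div_of_nonneg_right h1 (by positivity)

theorem IWc_all (D : ℕ) : ∃ c m : ℕ, 1 ≤ c ∧ ∀ d, 1 ≤ d → d ≤ D → IWc d c m := by
  induction D with
  | zero => exact ⟨1, 0, le_rfl, fun d h1 h2 => by omega⟩
  | succ D ih =>
    obtain ⟨c, m, hc, h⟩ := ih
    obtain ⟨c', m', hc', h'⟩ := IW_all (D + 1) (by omega)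
    refine ⟨max c c', max m m', hc.trans (le_max_left _ _), fun d h1 h2 => ?_⟩
    rcases Nat.lt_or_ge d (D + 1) with h3 | h3
    · exact IWc_mono (le_max_left _ _) (le_max_left _ _) (h d h1 (by omega))
    · have : d = D + 1 := by omega
      subst this
      exact IWc_mono (le_max_right _ _) (le_max_right _ _) h'

/-- number of frequencies with a large Weyl sum -/
theorem count_unif (D : ℕ) : ∃ (K : ℝ) (m : ℕ), 1 ≤ K ∧ 1 ≤ m ∧ ∀ f : ℤ[X], 1 ≤ f.natDegree → f.natDegree ≤ D →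
    ∀ E B : ℝ, 1 ≤ E → 1 ≤ B → |(f.leadingCoeff : ℝ)| ≤ E → ∀ x M : ℕ, 1 ≤ x → 1 ≤ M →
    (M : ℝ) ≤ B * (x : ℝ) ^ f.natDegree → ∀ u : ℝ, 1 ≤ u →
      (#((range M).filter (fun t : ℕ => (x : ℝ) ≤ u * ‖∑ n ∈ Icc 1 x, ee ((t : ℝ) * ((f.eval (n : ℤ) : ℤ) : ℝ) / M)‖)) : ℝ) ≤
        K * E * B * u ^ m := by
  obtain ⟨c, m, hc, hI⟩ := IWc_all D
  refine ⟨9 * ((D.factorial : ℝ) + 1) * c ^ 3, 3 * m + 1, ?_, by omega, ?_⟩
  · have h1 : (1 : ℝ) ≤ (c : ℝ) ^ 3 := one_le_pow₀ (by exact_mod_cast hc)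
    have h2 : (0 : ℝ) ≤ (D.factorial : ℝ) := Nat.cast_nonneg _
    nlinarith
  intro f hd hdD E0 B hE0 hB hlE x M hx hM hMx u hu
  set d := f.natDegree with hdd
  have hl : f.leadingCoeff ≠ 0 := by
    intro h
    rw [leadingCoeff_eq_zero] at h
    rw [h, natDegree_zero] at hdd
    omega
  set lc : ℕ := f.leadingCoeff.natAbs with hlc
  have hlc1 : 1 ≤ lc := Int.natAbs_pos.2 hl
  have hlcE : (lc : ℝ) ≤ E0 := by
    rw [hlc, Nat.cast_natAbs, Int.cast_abs]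
    exact hlE
  set A₀ : ℕ := d.factorial * lc with hA₀
  have hA1 : 1 ≤ A₀ := Nat.mul_pos (Nat.factorial_pos d) hlc1
  have hAE : (A₀ : ℝ) + 1 ≤ ((D.factorial : ℝ) + 1) * E0 := by
    rw [hA₀]
    push_cast
    have h1 : (d.factorial : ℝ) ≤ D.factorial := by exact_mod_cast Nat.factorial_le hdD
    have h2 : (d.factorial : ℝ) * lc ≤ D.factorial * E0 := by gcongr
    linarith
  have hx0 : (0 : ℝ) < x := by exact_mod_cast hx
  have hM0 : (0 : ℝ) < M := by exact_mod_cast hM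
  set E : ℝ := c * u ^ m with hE
  have hc1 : (1 : ℝ) ≤ c := by exact_mod_cast hc
  have hE1 : 1 ≤ E := one_le_mul_of_one_le_of_one_le hc1 (one_le_pow₀ hu)
  have hA1r : (1 : ℝ) ≤ A₀ := by exact_mod_cast hA1
  set R : Finset (ℕ × ℤ × ℤ) := (Icc 1 ⌊E⌋₊) ×ˢ ((Icc (-(⌊E * (A₀ + 1)⌋₊ : ℤ)) ⌊E * (A₀ + 1)⌋₊) ×ˢ
    (Icc (-(⌊E * B⌋₊ : ℤ)) ⌊E * B⌋₊)) with hR
  set Φ : ℕ × ℤ × ℤ → ℕ := fun v => ((v.2.1 * M + v.2.2) / ((v.1 : ℤ) * A₀)).toNat with hΦ
  have hsub : (range M).filter (fun t : ℕ => (x : ℝ) ≤ u * ‖∑ n ∈ Icc 1 x, ee ((t : ℝ) * ((f.eval (n : ℤ) : ℤ) : ℝ) / M)‖) ⊆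
      R.image Φ := by
    intro t ht
    rw [mem_filter, mem_range] at ht
    obtain ⟨htM, ht⟩ := ht
    have htr : (t : ℝ) < M := by exact_mod_cast htM
    have hph := Ph_succ _ _ _ (Ph_poly d f le_rfl ((t : ℝ) / M))
    have hsum : ∑ n ∈ Icc 1 x, ee ((t : ℝ) * ((f.eval (n : ℤ) : ℤ) : ℝ) / M) =
        ∑ n ∈ range x, ee ((fun n : ℕ => (fun n : ℕ => (t : ℝ) / M * ((f.eval (n : ℤ) : ℤ) : ℝ)) (n + 1)) n) := by
      rw [sum_Icc_one]
      apply sum_congr rfl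
      intro n _
      congr 1
      ring
    rw [hsum] at ht
    obtain ⟨q, hq1, hq2, a0, ha0⟩ := hI d hd hdD x u _ _ hx hu hph ht
    have hq0 : (0 : ℝ) < q := by exact_mod_cast hq1
    have hcoef : f.coeff d = f.leadingCoeff := rfl
    rw [hcoef] at ha0
    obtain ⟨a, ha⟩ : ∃ a : ℤ, |(q : ℝ) * A₀ * t / M - a| ≤ E / (x : ℝ) ^ d := by
      rcases Int.natAbs_eq f.leadingCoeff with h | h
      · refine ⟨a0, ?_⟩
        rw [← hlc] at h
        have e1 : (q : ℝ) * ((t : ℝ) / M * ((d.factorial : ℝ) * ((f.leadingCoeff : ℤ) : ℝ))) = q * A₀ * t / M := by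
          rw [h, hA₀]; push_cast; ring
        rwa [e1] at ha0
      · refine ⟨-a0, ?_⟩
        rw [← hlc] at h
        have e1 : (q : ℝ) * ((t : ℝ) / M * ((d.factorial : ℝ) * ((f.leadingCoeff : ℤ) : ℝ))) = -(q * A₀ * t / M) := by
          rw [h, hA₀]; push_cast; ring
        rw [e1] at ha0
        rw [← abs_neg] at ha0
        refine le_trans (le_of_eq ?_) ha0
        congr 1
        push_cast
        ring
    set e : ℤ := (q : ℤ) * A₀ * t - a * M with he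
    have hx1 : (1 : ℝ) ≤ (x : ℝ) ^ d := one_le_pow₀ (by exact_mod_cast hx)
    have heB : |(e : ℝ)| ≤ E * B := by
      have e2 : (e : ℝ) = (q * A₀ * t / M - a) * M := by
        rw [he]; push_cast; field_simp
      rw [e2, abs_mul, abs_of_pos hM0]
      calc |(q : ℝ) * A₀ * t / M - a| * M ≤ (E / (x : ℝ) ^ d) * (B * (x : ℝ) ^ d) := by
            apply mul_le_mul ha hMx hM0.le (by positivity)
        _ = E * B := by field_simp
    have haB : |(a : ℝ)| ≤ E * (A₀ + 1) := by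
      have h1 : |(q : ℝ) * A₀ * t / M| ≤ E * A₀ := by
        rw [abs_of_nonneg (by positivity), div_le_iff₀ hM0]
        calc (q : ℝ) * A₀ * t ≤ E * A₀ * M := by
              apply mul_le_mul _ htr.le (Nat.cast_nonneg _) (by positivity)
              exact mul_le_mul_of_nonneg_right hq2 (by positivity)
          _ = _ := by ring
      have h2 : E / (x : ℝ) ^ d ≤ E := div_le_self (by linarith) hx1
      calc |(a : ℝ)| = |(q : ℝ) * A₀ * t / M - ((q : ℝ) * A₀ * t / M - a)| := by congr 1; ring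
        _ ≤ |(q : ℝ) * A₀ * t / M| + |(q : ℝ) * A₀ * t / M - a| := abs_sub _ _
        _ ≤ E * A₀ + E := add_le_add h1 (ha.trans h2)
        _ = _ := by ring
    rw [mem_image]
    refine ⟨(q, a, e), ?_, ?_⟩
    · rw [hR, mem_product, mem_product, mem_Icc, mem_Icc, mem_Icc]
      have natfl : ∀ (z : ℤ) (r : ℝ), |(z : ℝ)| ≤ r → -(⌊r⌋₊ : ℤ) ≤ z ∧ z ≤ ⌊r⌋₊ := by
        intro z r hz
        have h1 : z.natAbs ≤ ⌊r⌋₊ := by
          apply Nat.le_floor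
          rw [Nat.cast_natAbs, Int.cast_abs]
          exact hz
        omega
      exact ⟨⟨hq1, Nat.le_floor hq2⟩, natfl a _ haB, natfl e _ heB⟩
    · simp only [hΦ]
      have h1 : a * M + e = (t : ℤ) * ((q : ℤ) * A₀) := by rw [he]; ring
      rw [h1, Int.mul_ediv_cancel]
      · exact Int.toNat_natCast t
      · have : 0 < q * A₀ := Nat.mul_pos hq1 hA1
        exact_mod_cast this.ne'
  have hcard : #(R.image Φ) ≤ ⌊E⌋₊ * ((2 * ⌊E * (A₀ + 1)⌋₊ + 1) * (2 * ⌊E * B⌋₊ + 1)) := by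
    refine card_image_le.trans ?_
    rw [hR, card_product, card_product, Nat.card_Icc, Int.card_Icc, Int.card_Icc, Nat.add_sub_cancel]
    apply Nat.mul_le_mul_left
    apply Nat.mul_le_mul
    · omega
    · omega
  calc _ ≤ ((⌊E⌋₊ * ((2 * ⌊E * (A₀ + 1)⌋₊ + 1) * (2 * ⌊E * B⌋₊ + 1)) : ℕ) : ℝ) := by
        exact_mod_cast (card_le_card hsub).trans hcard
    _ = (⌊E⌋₊ : ℝ) * ((2 * ⌊E * (A₀ + 1)⌋₊ + 1) * (2 * ⌊E * B⌋₊ + 1)) := by push_cast; ring
    _ ≤ E * ((3 * (E * (A₀ + 1))) * (3 * (E * B))) := by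
        have h1 : (⌊E⌋₊ : ℝ) ≤ E := Nat.floor_le (by linarith)
        have h2 : (⌊E * (A₀ + 1)⌋₊ : ℝ) ≤ E * (A₀ + 1) := Nat.floor_le (by positivity)
        have h3 : (⌊E * B⌋₊ : ℝ) ≤ E * B := Nat.floor_le (by positivity)
        have h4 : 1 ≤ E * (A₀ + 1) := one_le_mul_of_one_le_of_one_le hE1 (by linarith)
        have h5 : 1 ≤ E * B := one_le_mul_of_one_le_of_one_le hE1 hB
        apply mul_le_mul h1 _ (by positivity) (by linarith)
        apply mul_le_mul (by linarith) (by linarith) (by positivity) (by positivity)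
    _ = 9 * (((A₀ : ℝ) + 1) * B * c ^ 3) * u ^ (3 * m) := by
        rw [hE, show 3 * m = m + m + m by ring, pow_add, pow_add]; ring
    _ ≤ 9 * ((((D.factorial : ℝ) + 1) * E0) * B * c ^ 3) * u ^ (3 * m + 1) := by
        have h6 : u ^ (3 * m) ≤ u ^ (3 * m + 1) := pow_le_pow_right₀ hu (by omega)
        have h7 : (0 : ℝ) ≤ (A₀ : ℝ) + 1 := by positivity
        gcongr
    _ = _ := by ring

/-- high moments of Weyl sums over the frequencies `t / M` -/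
theorem moment_unif (D : ℕ) : ∃ (C : ℝ) (s : ℕ), 1 ≤ C ∧ 1 ≤ s ∧ ∀ f : ℤ[X], 1 ≤ f.natDegree → f.natDegree ≤ D →
    ∀ E B : ℝ, 1 ≤ E → 1 ≤ B → |(f.leadingCoeff : ℝ)| ≤ E → ∀ x M : ℕ, 1 ≤ x → 1 ≤ M →
    (M : ℝ) ≤ B * (x : ℝ) ^ f.natDegree →
      ∑ t ∈ range M, (‖∑ n ∈ Icc 1 x, ee ((t : ℝ) * ((f.eval (n : ℤ) : ℤ) : ℝ) / M)‖ / x) ^ (2 * s) ≤ C * (E * B) ^ 2 := by
  obtain ⟨K, m, hK, hm, hcount⟩ := count_unif D
  have hs : Summable (fun n : ℕ => 1 / ((n : ℝ) + 1) ^ 2) := by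
    have h1 : Summable (fun n : ℕ => 1 / (n : ℝ) ^ 2) := Real.summable_one_div_nat_pow.2 (by norm_num)
    have h2 := (summable_nat_add_iff 1).2 h1
    simpa using h2
  set S : ℝ := ∑' n : ℕ, 1 / ((n : ℝ) + 1) ^ 2 with hS
  have hS1 : 1 ≤ S := by
    have h1 : (1 : ℝ) / (((0 : ℕ) : ℝ) + 1) ^ 2 ≤ S := hs.le_tsum 0 (fun n _ => by positivity)
    norm_num at h1
    exact h1
  refine ⟨K ^ 2 * S, m, by nlinarith, hm, fun f hf1 hf2 E B hE hB hlE x M hx hM hMx => ?_⟩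
  set K' : ℝ := K * E * B with hK'
  have hK1 : 1 ≤ K' := by
    rw [hK']
    have : 1 ≤ K * E := one_le_mul_of_one_le_of_one_le hK hE
    exact one_le_mul_of_one_le_of_one_le this hB
  have hx0 : (0 : ℝ) < x := by exact_mod_cast hx
  set s : ℕ → ℝ := fun t => ‖∑ n ∈ Icc 1 x, ee ((t : ℝ) * ((f.eval (n : ℤ) : ℤ) : ℝ) / M)‖ / x with hs'
  have hs0 : ∀ t, 0 ≤ s t := fun t => by simp only [hs']; positivity
  have hs1 : ∀ t, s t ≤ 1 := by
    intro t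
    simp only [hs']
    rw [div_le_one hx0]
    calc ‖∑ n ∈ Icc 1 x, ee ((t : ℝ) * ((f.eval (n : ℤ) : ℤ) : ℝ) / M)‖ ≤
        ∑ n ∈ Icc 1 x, ‖ee ((t : ℝ) * ((f.eval (n : ℤ) : ℤ) : ℝ) / M)‖ := norm_sum_le _ _
      _ = x := by simp [Pool.Agent.Helper602.MK.N_J5b.norm_ee]
  have hsort := sort_sum (fun t => s t ^ (2 * m)) (range M) (fun n => (K' : ℝ) ^ 2 * (1 / (n : ℝ) ^ 2)) (by
    intro X hX hXne
    obtain ⟨t, ht, hmin⟩ := exists_min_image X s hXne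
    refine ⟨t, ht, ?_⟩
    have hn0 : (0 : ℝ) < #X := by exact_mod_cast card_pos.2 hXne
    rcases (hs0 t).eq_or_lt with h0 | h0
    · rw [← h0, zero_pow (by omega)]; positivity
    · have h1 : 1 ≤ 1 / s t := by rw [le_div_iff₀ h0]; linarith [hs1 t]
      have h2 := hcount f hf1 hf2 E B hE hB hlE x M hx hM hMx (1 / s t) h1
      have h3 : X ⊆ (range M).filter (fun t' : ℕ => (x : ℝ) ≤ (1 / s t) *
          ‖∑ n ∈ Icc 1 x, ee ((t' : ℝ) * ((f.eval (n : ℤ) : ℤ) : ℝ) / M)‖) := by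
        intro t' ht'
        rw [mem_filter]
        refine ⟨hX ht', ?_⟩
        have h4 := hmin t' ht'
        have h5 : ‖∑ n ∈ Icc 1 x, ee ((t' : ℝ) * ((f.eval (n : ℤ) : ℤ) : ℝ) / M)‖ = s t' * x := by
          simp only [hs']; field_simp
        rw [h5, one_div, ← mul_assoc, inv_mul_eq_div]
        have h6 : 1 ≤ s t' / s t := by rw [le_div_iff₀ h0, one_mul]; exact h4
        nlinarith
      have h4 : (#X : ℝ) ≤ K' * (1 / s t) ^ m := le_trans (by exact_mod_cast card_le_card h3) h2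
      have h5 : s t ^ m ≤ K' / #X := by
        rw [le_div_iff₀ hn0]
        rw [one_div, inv_pow, ← div_eq_mul_inv, le_div_iff₀ (by positivity)] at h4
        linarith
      calc s t ^ (2 * m) = (s t ^ m) ^ 2 := by rw [← pow_mul, mul_comm]
        _ ≤ (K' / #X) ^ 2 := pow_le_pow_left₀ (by positivity) h5 2
        _ = _ := by rw [div_pow]; ring)
  refine hsort.trans ?_
  rw [← mul_sum]
  have e : K ^ 2 * S * (E * B) ^ 2 = K' ^ 2 * S := by rw [hK']; ring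
  rw [e]
  apply mul_le_mul_of_nonneg_left _ (by positivity)
  push_cast
  exact hs.sum_le_tsum _ (fun n _ => by positivity)

theorem ee_same (x : ℝ) : ee x = Pool.Agent.H807R2.Dav.ee x := by
  unfold Pool.Agent.Helper602.MK.ee Pool.Agent.H807R2.Dav.ee
  congr 1
  ring

end

end Run7.h402.PV
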