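import Mathlib
import Pool.Agent.Run7.h402.PV.V1
import Pool.Agent.Run7.h402.PT.C1

/-!
# The bilinear estimate along the values of a polynomial, and several polynomials at once
-/

set_option autoImplicit false

namespace Run7.h402.PV

open Finset Polynomial
open Pool.Agent.H807R2.Dav
open Pool.Agent.H373R2.T7

noncomputable section

/-- the value of the `i`-th polynomial, as a natural number -/
def vl (P : ℤ[X]) (N : ℕ) (n v : ℕ) : ℕ := (P.eval (n : ℤ) + N + v).natAbs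

theorem vl_range (P : ℤ[X]) (N n v : ℕ) (h : |P.eval (n : ℤ)| < N) (hv1 : 1 ≤ v) (hv2 : v ≤ N) :
    2 ≤ vl P N n v ∧ vl P N n v ≤ 3 * N ∧ ((vl P N n v : ℕ) : ℤ) = P.eval (n : ℤ) + N + v := by
  unfold vl
  rw [abs_lt] at h
  omega

/-- the bilinear estimate along the values of a polynomial -/
theorem poly_bil (D : ℕ) : ∃ (C : ℝ) (s : ℕ), 1 ≤ C ∧ 1 ≤ s ∧ ∀ P : ℤ[X], 1 ≤ P.natDegree → P.natDegree ≤ D →
    ∀ E : ℝ, 1 ≤ E → |(P.leadingCoeff : ℝ)| ≤ E → ∀ x N : ℕ, 1 ≤ x → 1 ≤ N → (N : ℝ) ≤ E * (x : ℝ) ^ P.natDegree →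
    (∀ n : ℕ, 1 ≤ n → n ≤ x → |P.eval (n : ℤ)| < N) →
    ∀ (d : ℕ → ℝ) (δ B η : ℝ), 0 < η → 0 ≤ B → (∀ n, 1 ≤ n → n ≤ 3 * N → |d n| ≤ B) →
    (∀ α : ℝ, ‖∑ n ∈ Icc 1 (3 * N), ((d n : ℝ) : ℂ) * ee ((n : ℝ) * α)‖ ≤ δ) →
    ∀ g c : ℕ → ℂ, (∀ a, ‖g a‖ ≤ 1) → (∀ m, ‖c m‖ ≤ 1) →
      ‖∑ v ∈ Icc 1 N, ∑ n ∈ Icc 1 x, g v * c n * ((d (vl P N n v) : ℝ) : ℂ)‖ ≤
        x * (3 * C * E ^ 4 / η ^ (2 * s) * δ + 2 * η * B * N) := by
  obtain ⟨C, s, hC, hs, hmom⟩ := moment_unif D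
  refine ⟨C, s, hC, hs, fun P hP1 hP2 E hE hlE x N hx hN hNE hPN d δ B η hη hB hdB hsup g c hg hc => ?_⟩
  have hN0 : (0 : ℝ) < N := by exact_mod_cast hN
  have hx0 : (0 : ℝ) < x := by exact_mod_cast hx
  have hδ : 0 ≤ δ := (norm_nonneg _).trans (hsup 0)
  set F : ℕ → ℤ := fun m => P.eval (m : ℤ) + N with hF
  have hFr : ∀ m ∈ Icc 1 x, 0 < F m ∧ F m < 2 * N := by
    intro m hm
    rw [mem_Icc] at hm
    have := abs_lt.1 (hPN m hm.1 hm.2)
    simp only [hF]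
    omega
  have hM : (((3 * N : ℕ) : ℕ) : ℝ) ≤ (3 * E) * (x : ℝ) ^ P.natDegree := by
    push_cast
    nlinarith
  have h1 := hmom P hP1 hP2 E (3 * E) hE (by linarith) hlE x (3 * N) hx (by omega) hM
  have h2 : ∑ t ∈ range (3 * N), (‖∑ m ∈ Icc 1 x, ee ((t : ℝ) * ((F m : ℝ) / ((3 * N : ℕ) : ℝ)))‖ / x) ^ (2 * s) ≤
      C * (E * (3 * E)) ^ 2 := by
    refine le_trans (le_of_eq ?_) h1
    apply sum_congr rfl
    intro t _
    congr 2
    have e : ∑ m ∈ Icc 1 x, ee ((t : ℝ) * ((F m : ℝ) / ((3 * N : ℕ) : ℝ))) =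
        ee ((t : ℝ) * N / ((3 * N : ℕ) : ℝ)) * ∑ n ∈ Icc 1 x, Pool.Agent.Helper602.MK.ee ((t : ℝ) * ((P.eval (n : ℤ) : ℤ) : ℝ) / ((3 * N : ℕ) : ℝ)) := by
      rw [mul_sum]
      apply sum_congr rfl
      intro m _
      rw [ee_same, ← ee_add]
      congr 1
      simp only [hF]
      push_cast
      ring
    rw [e, norm_mul, norm_ee, one_mul]
  have h3 := bil_main N (3 * N) x (3 * N) (by omega) (fun n => ((d n : ℝ) : ℂ)) g c F δ η s (C * (E * (3 * E)) ^ 2)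
    (3 * N * B ^ 2) (fun a ha m hm n hn => by
      have := hFr m hm
      rw [mem_Icc] at ha hn
      rw [abs_lt]
      push_cast
      constructor <;> omega) (by omega) le_rfl hx hsup hg hc h2 (by
      have h4 : ∀ n ∈ Icc 1 (3 * N), ‖((d n : ℝ) : ℂ)‖ ^ 2 ≤ B ^ 2 := by
        intro n hn
        rw [mem_Icc] at hn
        rw [Complex.norm_real, Real.norm_eq_abs]
        exact pow_le_pow_left₀ (abs_nonneg _) (hdB n hn.1 hn.2) 2
      refine (sum_le_sum h4).trans (le_of_eq ?_)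
      rw [sum_const, Nat.card_Icc, nsmul_eq_mul]
      push_cast
      ring) hη
  have h4 : ∑ v ∈ Icc 1 N, ∑ n ∈ Icc 1 x, g v * c n * ((d (vl P N n v) : ℝ) : ℂ) =
      ∑ a ∈ Icc 1 N, ∑ m ∈ Icc 1 x, g a * c m * fz (fun n => ((d n : ℝ) : ℂ)) (3 * N) (a + F m) := by
    apply sum_congr rfl
    intro a ha
    apply sum_congr rfl
    intro m hm
    have h5 := hFr m hm
    rw [mem_Icc] at ha
    unfold fz
    have h6 : vl P N m a = ((a : ℤ) + F m).toNat := by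
      unfold vl
      simp only [hF] at h5 ⊢
      omega
    rw [if_pos (by push_cast; omega), h6]
  rw [h4]
  refine h3.trans ?_
  have h5 : Real.sqrt (3 * N * B ^ 2 * N) ≤ 2 * B * N := by
    rw [Real.sqrt_le_left (by positivity)]
    have : 0 ≤ (B * (N : ℝ)) ^ 2 := sq_nonneg _
    nlinarith
  have h6 : C * (E * (3 * E)) ^ 2 / η ^ (2 * s) * δ * N * x / ((3 * N : ℕ) : ℝ) = x * (3 * C * E ^ 4 / η ^ (2 * s) * δ) := by
    push_cast
    field_simp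
  rw [h6]
  have h7 : η * x * Real.sqrt (3 * N * B ^ 2 * N) ≤ η * x * (2 * B * N) := by gcongr
  linarith

/-- several polynomials at once -/
theorem poly_tuple (D : ℕ) : ∃ (C : ℝ) (s : ℕ), 1 ≤ C ∧ 1 ≤ s ∧ ∀ (k : ℕ) (P : Fin k → ℤ[X]) (N : Fin k → ℕ) (x : ℕ) (E : ℝ),
    1 ≤ E → 1 ≤ x → (∀ i, 1 ≤ (P i).natDegree ∧ (P i).natDegree ≤ D ∧ |((P i).leadingCoeff : ℝ)| ≤ E ∧ 1 ≤ N i ∧
      ((N i : ℕ) : ℝ) ≤ E * (x : ℝ) ^ (P i).natDegree ∧ (∀ n : ℕ, 1 ≤ n → n ≤ x → |(P i).eval (n : ℤ)| < N i)) →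
    ∀ (f g : ℕ → ℝ) (B δ η : ℝ), 0 < η → 1 ≤ B → 0 ≤ δ → (∀ i, ∀ n, 1 ≤ n → n ≤ 3 * N i → |f n| ≤ B) →
    (∀ i, ∀ n, 1 ≤ n → n ≤ 3 * N i → |g n| ≤ B) →
    (∀ i, ∀ α : ℝ, ‖∑ n ∈ Icc 1 (3 * N i), ((f n - g n : ℝ) : ℂ) * ee ((n : ℝ) * α)‖ ≤ δ * N i) →
      ∑ v ∈ Fintype.piFinset (fun i => Icc 1 (N i)),
        |∑ n ∈ Icc 1 x, (∏ i, f (vl (P i) (N i) n (v i)) - ∏ i, g (vl (P i) (N i) n (v i)))| ≤
        k * (B ^ k * (x * (3 * C * E ^ 4 / η ^ (2 * s) * δ + 4 * η * B))) * ∏ i, (N i : ℝ) := by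
  obtain ⟨C, s, hC, hs, hbil⟩ := poly_bil D
  refine ⟨C, s, hC, hs, fun k P N x E hE hx hP f g B δ η hη hB hδ hf hg hd => ?_⟩
  have h := tele (k := k) x N (fun i => (hP i).2.2.2.1) (fun i n v => f (vl (P i) (N i) n v)) (fun i n v => g (vl (P i) (N i) n v)) B
    (x * (3 * C * E ^ 4 / η ^ (2 * s) * δ + 4 * η * B)) hB (by positivity)
    (fun i n hn v hv => by
      rw [mem_Icc] at hn hv
      have h1 := vl_range (P i) (N i) n v ((hP i).2.2.2.2.2 n hn.1 hn.2) hv.1 hv.2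
      exact hf i _ (by omega) h1.2.1)
    (fun i n hn v hv => by
      rw [mem_Icc] at hn hv
      have h1 := vl_range (P i) (N i) n v ((hP i).2.2.2.2.2 n hn.1 hn.2) hv.1 hv.2
      exact hg i _ (by omega) h1.2.1)
    (fun i K hK G hG => by
      obtain ⟨p1, p2, p3, p4, p5, p6⟩ := hP i
      have h1 := l1_of_bil' (N i) x (fun v n => f (vl (P i) (N i) n v) - g (vl (P i) (N i) n v))
        (x * (3 * C * E ^ 4 / η ^ (2 * s) * (δ * N i) + 2 * η * (2 * B) * N i)) K hK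
        (fun G c hG hc => hbil (P i) p1 p2 E hE p3 x (N i) hx p4 p5 p6 (fun m => f m - g m) (δ * N i) (2 * B) η hη (by linarith)
          (fun n hn1 hn2 => by
            refine (abs_sub _ _).trans ?_
            have := hf i n hn1 hn2
            have := hg i n hn1 hn2
            linarith) (hd i) G c hG hc) G hG
      refine h1.trans (le_of_eq ?_)
      ring) univ 1 one_pos (fun _ _ => 1) (fun n _ m _ => by simp) (fun _ _ _ _ _ => rfl)
  simp only [one_mul, card_univ, Fintype.card_fin] at h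
  exact h

/-- the number of roots modulo a prime -/
theorem roots_le (f : ℤ[X]) (p : ℕ) (hp : p.Prime) (hne : ∃ n : ℤ, ¬ (p : ℤ) ∣ f.eval n) :
    ((range p).filter (fun b : ℕ => (p : ℤ) ∣ f.eval (b : ℤ))).card ≤ f.natDegree := by
  classical
  haveI : Fact p.Prime := ⟨hp⟩
  set g : (ZMod p)[X] := f.map (Int.castRingHom (ZMod p)) with hg
  have hev : ∀ n : ℤ, g.eval (n : ZMod p) = ((f.eval n : ℤ) : ZMod p) := by
    intro n
    rw [hg]
    have := Polynomial.eval_map_apply (f := Int.castRingHom (ZMod p)) (p := f) n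
    simpa using this
  have hg0 : g ≠ 0 := by
    intro h
    obtain ⟨n, hn⟩ := hne
    apply hn
    rw [← ZMod.intCast_zmod_eq_zero_iff_dvd, ← hev, h, eval_zero]
  have h1 : ((range p).filter (fun b : ℕ => (p : ℤ) ∣ f.eval (b : ℤ))).card ≤ g.roots.toFinset.card := by
    apply card_le_card_of_injOn (fun b : ℕ => (b : ZMod p))
    · intro b hb
      rw [mem_coe, mem_filter] at hb
      rw [mem_coe, Multiset.mem_toFinset, mem_roots hg0, IsRoot.def]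
      have := hev (b : ℤ)
      rw [Int.cast_natCast] at this
      rw [this, ZMod.intCast_zmod_eq_zero_iff_dvd]
      exact hb.2
    · intro a ha b hb hab
      rw [mem_coe, mem_filter, mem_range] at ha hb
      have h2 := congrArg ZMod.val hab
      simp only [ZMod.val_natCast] at h2
      rwa [Nat.mod_eq_of_lt ha.1, Nat.mod_eq_of_lt hb.1] at h2
  refine h1.trans ((Multiset.toFinset_card_le _).trans ((card_roots' g).trans ?_))
  exact natDegree_map_le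

theorem dvd_period (f : ℤ[X]) (p n : ℕ) : (p : ℤ) ∣ f.eval ((n % p : ℕ) : ℤ) ↔ (p : ℤ) ∣ f.eval (n : ℤ) := by
  have h1 : (p : ℤ) ∣ (n : ℤ) - ((n % p : ℕ) : ℤ) := by
    push_cast
    exact Int.dvd_self_sub_emod
  have h2 := h1.trans (Polynomial.sub_dvd_eval_sub (n : ℤ) ((n % p : ℕ) : ℤ) f)
  constructor
  · intro h
    have := dvd_add h2 h
    simpa using this
  · intro h
    have := dvd_sub h h2
    simpa using this

end

end Run7.h402.PV
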