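import Mathlib
import Pool.Agent.Run7.h402.PV.V2
import Pool.Agent.Run7.h402.PV.V3
import Pool.Agent.Run7.h402.PT.C4

/-!
# The primes and the corrected model at the values of many polynomials
-/

set_option autoImplicit false

namespace Run7.h402.PV

open Finset Polynomial
open Pool.Agent.H807R2.Dav
open Pool.Agent.H373R2.T7 (pz Vz lamz mem_pz Vz_pos Vz_inv_le Vz_le_one lamz_nonneg)
open Run7.h402.PT (zl zl_le zl_one zl_gt Vz_scale grow Fp Fp_nonneg Fp_sup sup_all Gr Gr_bounds)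

noncomputable section

/-- the conditions on the polynomials and the ranges -/
def Cond {k : ℕ} (D : ℕ) (l τ : ℝ) (x : ℕ) (P : Fin k → ℤ[X]) (N : Fin k → ℕ) : Prop :=
  ∀ i, 1 ≤ (P i).natDegree ∧ (P i).natDegree ≤ D ∧ |((P i).leadingCoeff : ℝ)| ≤ Real.exp (τ / 100 * √l) ∧ x ≤ N i ∧
    ((3 * N i : ℕ) : ℝ) ≤ Real.exp (l ^ 41) ∧ ((N i : ℕ) : ℝ) ≤ Real.exp (τ / 100 * √l) * (x : ℝ) ^ (P i).natDegree ∧
    (∀ n : ℕ, 1 ≤ n → n ≤ x → |(P i).eval (n : ℤ)| < N i)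

theorem poly_model (D : ℕ) : ∃ τ : ℝ, 0 < τ ∧ τ ≤ 1 / 10 ∧ ∃ l0 : ℝ, ∀ l : ℝ, l0 ≤ l → ∃ (Λ : ℝ) (G : ℕ → ℝ), √l ≤ Λ ∧ Λ ≤ l / 8 ∧
    (∀ n, 1 ≤ n → 0 ≤ G n) ∧
    ∀ x : ℕ, Real.exp (l ^ 23) ≤ x → ∀ k : ℕ, 1 ≤ k → ((k * D : ℕ) : ℝ) ≤ l ^ (12 / 25 : ℝ) →
    ∀ (P : Fin k → ℤ[X]) (N : Fin k → ℕ), Cond D l τ x P N →
      (∑ v ∈ Fintype.piFinset (fun i => Icc 1 (N i)),
        |∑ n ∈ Icc 1 x, (∏ i, Fp (vl (P i) (N i) n (v i)) - ∏ i, G (vl (P i) (N i) n (v i)))| ≤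
          x * Real.exp (-(τ * Λ)) * ∏ i, (N i : ℝ)) ∧
      ∀ v ∈ Fintype.piFinset (fun i => Icc 1 (N i)), (∀ p ∈ pz (zl l), ∃ n : ℕ, ∀ i, ¬ (p : ℤ) ∣ (P i).eval (n : ℤ) + N i + v i) →
        x * Real.exp (-(τ / 4 * Λ)) ≤ ∑ n ∈ Icc 1 x, ∏ i, G (vl (P i) (N i) n (v i)) := by
  obtain ⟨C1, s, hC1, hs1, htup⟩ := poly_tuple D
  set τ : ℝ := 1 / (20 * (2 * s + 1)) with hτ
  have hs1r : (1 : ℝ) ≤ s := by exact_mod_cast hs1
  have hτ0 : 0 < τ := by rw [hτ]; positivity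
  have hτ1 : τ ≤ 1 / 60 := by
    rw [hτ]
    apply one_div_le_one_div_of_le (by norm_num)
    linarith
  refine ⟨τ, hτ0, by linarith, ?_⟩
  obtain ⟨l1, h1⟩ := sup_all
  obtain ⟨l2, h2⟩ := Fp_sup
  obtain ⟨l3, h3⟩ := model_lowG (τ / 4) (by positivity) (by linarith)
  obtain ⟨C, hC, hV⟩ := Vz_scale
  obtain ⟨l4, h4⟩ := grow (4 * C) (τ / 10) (by linarith) (by positivity)
  obtain ⟨l5, h5⟩ := grow (44 * C1 * C) (τ / 10) (by nlinarith) (by positivity)
  refine ⟨max (max (max l1 l2) (max l3 l4)) (max l5 4), fun l hl => ?_⟩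
  have hl1 : l1 ≤ l := (((le_max_left _ _).trans (le_max_left _ _)).trans (le_max_left _ _)).trans hl
  have hl2 : l2 ≤ l := (((le_max_right _ _).trans (le_max_left _ _)).trans (le_max_left _ _)).trans hl
  have hl3 : l3 ≤ l := (((le_max_left _ _).trans (le_max_right _ _)).trans (le_max_left _ _)).trans hl
  have hl4 : l4 ≤ l := (((le_max_right _ _).trans (le_max_right _ _)).trans (le_max_left _ _)).trans hl
  have hl5 : l5 ≤ l := ((le_max_left _ _).trans (le_max_right _ _)).trans hl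
  have hl44 : 4 ≤ l := ((le_max_right _ _).trans (le_max_right _ _)).trans hl
  have hl0 : 0 < l := by linarith
  have hlone : 1 ≤ l := by linarith
  have hsq0 : 0 ≤ √l := Real.sqrt_nonneg _
  obtain ⟨Λ, κ, β, q1, hNq1, χ, hΛs, hΛl, hκ0, hκ1, hβ1, hβh, hχ, hcase, hsup⟩ := h1 l hl1
  have hV := hV l hl44
  have hG0 : ∀ n, 1 ≤ n → 0 ≤ Gr l κ χ β n := fun n hn => (Gr_bounds l κ hκ0 hκ1 χ hχ β hβ1.le n hn).1
  refine ⟨Λ, Gr l κ χ β, hΛs, hΛl, hG0, ?_⟩
  intro x hx k hk1 hkl P N hP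
  have hx0 : (0 : ℝ) < x := (Real.exp_pos _).trans_le hx
  have hx1 : 1 ≤ x := by exact_mod_cast hx0
  have hD1 : 1 ≤ D := by
    obtain ⟨a1, a2, _⟩ := hP ⟨0, hk1⟩
    omega
  have hkk : (k : ℝ) ≤ ((k * D : ℕ) : ℝ) := by exact_mod_cast Nat.le_mul_of_pos_right k hD1
  have hNx : ∀ i, Real.exp (l ^ 23) ≤ ((3 * N i : ℕ) : ℝ) := by
    intro i
    have h6 : (x : ℝ) ≤ N i := by exact_mod_cast (hP i).2.2.2.1
    push_cast
    linarith
  constructor
  · set B : ℝ := 2 * C * l ^ 41 with hB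
    have hl41 : 1 ≤ l ^ 41 := one_le_pow₀ hlone
    have hB1 : 1 ≤ B := by rw [hB]; nlinarith
    set E : ℝ := Real.exp (τ / 100 * √l) with hE
    have hE1 : 1 ≤ E := Real.one_le_exp (by positivity)
    set η : ℝ := Real.exp (-(2 * τ * Λ)) with hη
    have hη0 : 0 < η := Real.exp_pos _
    have hΛ0 : 0 ≤ Λ := hsq0.trans hΛs
    have hfB : ∀ i, ∀ n, 1 ≤ n → n ≤ 3 * N i → |Fp n| ≤ B := by
      intro i n hn1 hn2
      rw [abs_of_nonneg (Fp_nonneg n)]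
      have h5 : Fp n ≤ Real.log n := by
        unfold Run7.h402.PT.Fp
        split_ifs
        · exact le_rfl
        · exact Real.log_natCast_nonneg n
      have h6 : Real.log n ≤ Real.log ((3 * N i : ℕ) : ℝ) := by
        apply Real.log_le_log (by exact_mod_cast hn1)
        exact_mod_cast hn2
      have h7 : Real.log ((3 * N i : ℕ) : ℝ) ≤ l ^ 41 := by
        rw [Real.log_le_iff_le_exp ((Real.exp_pos _).trans_le (hNx i))]
        exact (hP i).2.2.2.2.1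
      rw [hB]
      nlinarith
    have hgB : ∀ i, ∀ n, 1 ≤ n → n ≤ 3 * N i → |Gr l κ χ β n| ≤ B := by
      intro i n hn1 _
      have h5 := Gr_bounds l κ hκ0 hκ1 χ hχ β hβ1.le n hn1
      rw [abs_of_nonneg h5.1]
      refine h5.2.trans ?_
      have h6 : l ^ 2 ≤ l ^ 41 := pow_le_pow_right₀ hlone (by norm_num)
      calc 2 * (Vz (zl l))⁻¹ ≤ 2 * (C * l ^ 2) := by gcongr
        _ ≤ 2 * (C * l ^ 41) := by gcongr
        _ = B := by rw [hB]; ring
    have hd : ∀ i, ∀ α : ℝ, ‖∑ n ∈ Icc 1 (3 * N i), ((Fp n - Gr l κ χ β n : ℝ) : ℂ) * ee ((n : ℝ) * α)‖ ≤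
        6 * Real.exp (-(Λ / 10)) * N i := by
      intro i α
      have g1 := hsup (3 * N i) (hNx i) (hP i).2.2.2.2.1 α
      have g2 := h2 l hl2 (3 * N i) (hNx i) (hP i).2.2.2.2.1 α
      have e : ∑ n ∈ Icc 1 (3 * N i), ((Fp n - Gr l κ χ β n : ℝ) : ℂ) * ee ((n : ℝ) * α) =
          ∑ n ∈ Icc 1 (3 * N i), ((ArithmeticFunction.vonMangoldt n - Gr l κ χ β n : ℝ) : ℂ) * ee ((n : ℝ) * α) -
          ∑ n ∈ Icc 1 (3 * N i), ((ArithmeticFunction.vonMangoldt n - Fp n : ℝ) : ℂ) * ee ((n : ℝ) * α) := by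
        rw [← sum_sub_distrib]
        apply sum_congr rfl
        intro n _
        push_cast
        ring
      rw [e]
      refine (norm_sub_le _ _).trans ((add_le_add g1 g2).trans ?_)
      have g3 : Real.exp (-l) ≤ Real.exp (-(Λ / 10)) := by
        apply Real.exp_le_exp.2; linarith
      push_cast
      have g4 : 3 * (N i : ℝ) * Real.exp (-l) ≤ 3 * N i * Real.exp (-(Λ / 10)) := by gcongr
      linarith
    have key := htup k P N x E hE1 hx1 (fun i => ⟨(hP i).1, (hP i).2.1, (hP i).2.2.1, hx1.trans (hP i).2.2.2.1,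
      (hP i).2.2.2.2.2.1, (hP i).2.2.2.2.2.2⟩) Fp (Gr l κ χ β) B (6 * Real.exp (-(Λ / 10))) η hη0 hB1 (by positivity) hfB hgB hd
    refine key.trans ?_
    apply mul_le_mul_of_nonneg_right _ (prod_nonneg fun _ _ => Nat.cast_nonneg _)
    obtain ⟨g1, _, _⟩ := h4 l hl4 k (hkk.trans hkl)
    obtain ⟨g2, _, _⟩ := h5 l hl5 k (hkk.trans hkl)
    have e1 : 3 * C1 * E ^ 4 / η ^ (2 * s) * (6 * Real.exp (-(Λ / 10))) = 18 * C1 * E ^ 4 * η := by
      have e2 : Real.exp (-(Λ / 10)) = η ^ (2 * s) * η := by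
        rw [← pow_succ, hη, ← Real.exp_nat_mul]
        congr 1
        rw [hτ]
        push_cast
        field_simp
        ring
      rw [e2]
      have : η ^ (2 * s) ≠ 0 := by positivity
      field_simp
      ring
    have hE41 : 1 ≤ E ^ 4 := one_le_pow₀ hE1
    have e3 : 3 * C1 * E ^ 4 / η ^ (2 * s) * (6 * Real.exp (-(Λ / 10))) + 4 * η * B ≤ 22 * C1 * E ^ 4 * B * η := by
      rw [e1]
      have e4 : C1 * E ^ 4 * η ≤ C1 * E ^ 4 * η * B := le_mul_of_one_le_right (by positivity) hB1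
      have e5 : η * B ≤ C1 * E ^ 4 * (η * B) := le_mul_of_one_le_left (by positivity) (one_le_mul_of_one_le_of_one_le hC1 hE41)
      linarith
    have e6 : (k : ℝ) * (B ^ k * (22 * C1 * B)) ≤ Real.exp (τ / 10 * √l) * Real.exp (τ / 10 * √l) := by
      have e7 : (k : ℝ) ≤ 2 ^ k := by exact_mod_cast Nat.lt_two_pow_self.le
      have e8 : 22 * C1 * B ≤ (22 * C1 * B) ^ k := le_self_pow₀ (by nlinarith) (by omega)
      have e9 : l ^ 41 ≤ l ^ 50 := pow_le_pow_right₀ hlone (by norm_num)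
      calc (k : ℝ) * (B ^ k * (22 * C1 * B)) ≤ 2 ^ k * (B ^ k * (22 * C1 * B) ^ k) := by gcongr
        _ = (4 * C * l ^ 41) ^ k * (44 * C1 * C * l ^ 41) ^ k := by
            rw [← mul_pow, ← mul_pow, ← mul_pow, hB]; congr 1; ring
        _ ≤ (4 * C * l ^ 50) ^ k * (44 * C1 * C * l ^ 50) ^ k := by gcongr
        _ ≤ _ := by gcongr
    have e10 : E ^ 4 = Real.exp (τ / 25 * √l) := by
      rw [hE, ← Real.exp_nat_mul]; congr 1; push_cast; ring
    calc (k : ℝ) * (B ^ k * (x * (3 * C1 * E ^ 4 / η ^ (2 * s) * (6 * Real.exp (-(Λ / 10))) + 4 * η * B)))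
        ≤ k * (B ^ k * (x * (22 * C1 * E ^ 4 * B * η))) := by gcongr
      _ = x * ((k * (B ^ k * (22 * C1 * B))) * E ^ 4 * η) := by ring
      _ ≤ x * ((Real.exp (τ / 10 * √l) * Real.exp (τ / 10 * √l)) * Real.exp (τ / 25 * √l) * Real.exp (-(2 * τ * Λ))) := by
          rw [e10]; gcongr
      _ = x * Real.exp (τ / 10 * √l + τ / 10 * √l + τ / 25 * √l + -(2 * τ * Λ)) := by
          rw [Real.exp_add, Real.exp_add, Real.exp_add]
      _ ≤ x * Real.exp (-(τ * Λ)) := by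
          apply mul_le_mul_of_nonneg_left _ hx0.le
          apply Real.exp_le_exp.2
          have : τ * √l ≤ τ * Λ := by gcongr
          nlinarith
  · intro v hv hadm
    have hv' : ∀ i, 1 ≤ v i ∧ v i ≤ N i := fun i => mem_Icc.1 ((Fintype.mem_piFinset.1 hv) i)
    have hdv : ∀ (i : Fin k) (p n : ℕ), p ∣ vl (P i) (N i) n (v i) ↔ (p : ℤ) ∣ ((P i) + Polynomial.C ((N i : ℤ) + v i)).eval (n : ℤ) := by
      intro i p n
      unfold vl
      rw [← Int.natCast_dvd, eval_add, eval_C]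
      rw [add_assoc]
    apply h3 l hl3 Λ κ β q1 χ hΛs hκ0 hκ1 hβ1 hβh hχ hcase x hx k D hk1 hD1 hkl (fun i n => vl (P i) (N i) n (v i))
    · intro i n hn1 hn2
      exact (vl_range (P i) (N i) n (v i) ((hP i).2.2.2.2.2.2 n hn1 hn2) (hv' i).1 (hv' i).2).1
    · intro i p n
      simp only [hdv]
      exact dvd_period _ p n
    · intro i p hp
      simp only [hdv]
      refine (roots_le _ p (mem_pz.1 hp).2 ?_).trans ?_
      · obtain ⟨n, hn⟩ := hadm p hp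
        refine ⟨(n : ℤ), ?_⟩
        rw [eval_add, eval_C, ← add_assoc]
        exact hn i
      · refine (natDegree_add_le _ _).trans ?_
        rw [natDegree_C]
        exact max_le (hP i).2.1 (by omega)
    · intro p hp
      obtain ⟨n, hn⟩ := hadm p hp
      refine ⟨n, fun i h => hn i ?_⟩
      rw [hdv, eval_add, eval_C, ← add_assoc] at h
      exact h

end

end Run7.h402.PV
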