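import Mathlib
import Pool.Agent.Run7.h402.PV.V4

/-!
# Many vectors of constant terms without fixed prime divisors
-/

set_option autoImplicit false

namespace Run7.h402.PV

open Finset Polynomial
open Pool.Agent.H373R2.T7 (pz Vz lamz mem_pz Vz_pos Vz_inv_le Vz_le_one lamz_nonneg)
open Run7.h402.PT (zl zl_le zl_one zl_gt Vz_scale grow lamz_cls)

noncomputable section

/-- rough numbers in an interval -/
theorem rough_interval : ∃ C l0 : ℝ, 1 ≤ C ∧ ∀ l : ℝ, l0 ≤ l → ∀ N L : ℕ, Real.exp (l ^ 23) ≤ ((3 * N : ℕ) : ℝ) → L ≤ 2 * N →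
    (N : ℝ) ≤ C * l ^ 2 * (((Icc 1 N).filter (fun v => ∀ p ∈ pz (zl l), ¬ p ∣ L + v)).card : ℝ) := by
  obtain ⟨C, hC1, hV⟩ := Vz_scale
  refine ⟨2 * C, 8, by linarith, fun l hl N L hN hL => ?_⟩
  have hN0 : (0 : ℝ) < N := by
    have := (Real.exp_pos (l ^ 23)).trans_le hN
    push_cast at this
    linarith
  have cls : ∀ y : ℕ, y ≤ 3 * N → |∑ n ∈ Icc 1 y, lamz (zl l) n - y| ≤ ((3 * N : ℕ) : ℝ) * Real.exp (-(3 * l)) := by
    intro y hy
    have h1 := lamz_cls l hl ((3 * N : ℕ) : ℝ) hN 1 le_rfl (fun p hp h => by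
      have := Nat.dvd_one.1 h
      exact absurd this hp.one_lt.ne') 0 y (by exact_mod_cast hy)
    rw [if_pos (Nat.coprime_one_right 0)] at h1
    simp only [Nat.totient_one, Nat.cast_one, div_one] at h1
    have h3 : (Icc 1 y).filter (fun n => n ≡ 0 [MOD 1]) = Icc 1 y := by
      apply filter_true_of_mem
      intro n _
      exact Nat.modEq_one
    rw [h3] at h1
    exact h1
  have h1 := cls (L + N) (by omega)
  have h2 := cls L (by omega)
  have h3 : ∑ n ∈ Icc 1 (L + N), lamz (zl l) n = ∑ n ∈ Icc 1 L, lamz (zl l) n + ∑ v ∈ Icc 1 N, lamz (zl l) (L + v) := by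
    clear h1 h2 hL hN hN0 cls
    induction N with
    | zero => simp
    | succ N ih =>
      rw [← add_assoc, sum_Icc_succ_top (by omega), ih, sum_Icc_succ_top (by omega), ← add_assoc]
      rfl
  have h4 : ∑ v ∈ Icc 1 N, lamz (zl l) (L + v) = (Vz (zl l))⁻¹ * (((Icc 1 N).filter (fun v => ∀ p ∈ pz (zl l), ¬ p ∣ L + v)).card : ℝ) := by
    unfold Pool.Agent.H373R2.T7.lamz
    rw [← sum_filter, sum_const, nsmul_eq_mul, mul_comm]
  rw [h3, h4] at h1
  have h5 := (abs_le.1 h1).1
  have h6 := (abs_le.1 h2).2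
  have h7 : Real.exp (-(3 * l)) ≤ 1 / 12 := by
    rw [Real.exp_neg, inv_le_comm₀ (Real.exp_pos _) (by norm_num)]
    have := Real.add_one_le_exp (3 * l)
    norm_num
    linarith
  have h8 : ((3 * N : ℕ) : ℝ) * Real.exp (-(3 * l)) ≤ ((3 * N : ℕ) : ℝ) * (1 / 12) := by gcongr
  have hV := hV l (by linarith)
  have h9 : (Vz (zl l))⁻¹ * (((Icc 1 N).filter (fun v => ∀ p ∈ pz (zl l), ¬ p ∣ L + v)).card : ℝ) ≤
      C * l ^ 2 * (((Icc 1 N).filter (fun v => ∀ p ∈ pz (zl l), ¬ p ∣ L + v)).card : ℝ) := by gcongr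
  push_cast at h5 h6 h8
  linarith

/-- the number of roots modulo a prime, second form -/
theorem roots_le2 (f : ℤ[X]) (p : ℕ) (hp : p.Prime) (hne : ¬ (p : ℤ) ∣ f.leadingCoeff) :
    ((range p).filter (fun b : ℕ => (p : ℤ) ∣ f.eval (b : ℤ))).card ≤ f.natDegree := by
  classical
  haveI : Fact p.Prime := ⟨hp⟩
  set g : (ZMod p)[X] := f.map (Int.castRingHom (ZMod p)) with hg
  have hev : ∀ n : ℤ, g.eval (n : ZMod p) = ((f.eval n : ℤ) : ZMod p) := by
    intro n
    rw [hg]
    have := Polynomial.eval_map_apply (f := Int.castRingHom (ZMod p)) (p := f) n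
    simpa using this
  have hg0 : g ≠ 0 := by
    intro h
    apply hne
    rw [← ZMod.intCast_zmod_eq_zero_iff_dvd]
    have h1 : g.coeff f.natDegree = 0 := by rw [h, coeff_zero]
    rw [hg, coeff_map] at h1
    exact h1
  have h1 : ((range p).filter (fun b : ℕ => (p : ℤ) ∣ f.eval (b : ℤ))).card ≤ g.roots.toFinset.card := by
    apply card_le_card_of_injOn (fun b : ℕ => (b : ZMod p))
    · intro b hb
      rw [mem_coe, mem_filter] at hb
      rw [mem_coe, Multiset.mem_toFinset, mem_roots hg0, IsRoot.def]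
      have := hev (b : ℤ)
      rw [Int.cast_natCast] at this
      rw [this, ZMod.intCast_zmod_eq_zero_iff_dvd]
      exact hb.2
    · intro a ha b hb hab
      rw [mem_coe, mem_filter, mem_range] at ha hb
      have h2 := congrArg ZMod.val hab
      simp only [ZMod.val_natCast] at h2
      rwa [Nat.mod_eq_of_lt ha.1, Nat.mod_eq_of_lt hb.1] at h2
  refine h1.trans ((Multiset.toFinset_card_le _).trans ((card_roots' g).trans ?_))
  exact natDegree_map_le

/-- if the values at `1` have no small prime factor, no prime divides all the products of the values -/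
theorem adm_of_rough {k : ℕ} (P : Fin k → ℤ[X]) (a : Fin k → ℤ) (D z : ℕ) (hd : ∀ i, 1 ≤ (P i).natDegree ∧ (P i).natDegree ≤ D)
    (hlc : ∀ i, (P i).leadingCoeff.natAbs ≤ z) (hkz : k * D ≤ z) (h1 : ∀ i, ∀ p ∈ pz z, ¬ (p : ℤ) ∣ (P i).eval 1 + a i) :
    ∀ p : ℕ, p.Prime → ∃ n : ℕ, ∀ i, ¬ (p : ℤ) ∣ (P i).eval (n : ℤ) + a i := by
  intro p hp
  by_cases hpz : p ≤ z
  · refine ⟨1, fun i => ?_⟩
    have := h1 i p (mem_pz.2 ⟨hpz, hp⟩)
    simpa using this
  · push Not at hpz
    classical
    by_contra hcon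
    push Not at hcon
    have h2 : range p ⊆ (univ : Finset (Fin k)).biUnion (fun i => (range p).filter (fun b : ℕ => (p : ℤ) ∣ (P i + C (a i)).eval (b : ℤ))) := by
      intro b hb
      obtain ⟨i, hi⟩ := hcon b
      rw [mem_biUnion]
      refine ⟨i, mem_univ _, mem_filter.2 ⟨hb, ?_⟩⟩
      rw [eval_add, eval_C]
      exact hi
    have h3 : ∀ i, ((range p).filter (fun b : ℕ => (p : ℤ) ∣ (P i + C (a i)).eval (b : ℤ))).card ≤ D := by
      intro i
      have hdeg : (P i + C (a i)).natDegree = (P i).natDegree := natDegree_add_C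
      have hlead : (P i + C (a i)).leadingCoeff = (P i).leadingCoeff := by
        unfold leadingCoeff
        rw [hdeg, coeff_add, coeff_C, if_neg (by have := (hd i).1; omega), add_zero]
      refine (roots_le2 _ p hp ?_).trans ?_
      · rw [hlead]
        intro h
        have hl0 : (P i).leadingCoeff ≠ 0 := by
          intro h0
          rw [leadingCoeff_eq_zero] at h0
          have := (hd i).1
          rw [h0, natDegree_zero] at this
          omega
        have h4 := Int.natAbs_dvd_natAbs.2 h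
        rw [Int.natAbs_natCast] at h4
        have h5 := Nat.le_of_dvd (Int.natAbs_pos.2 hl0) h4
        have := hlc i
        omega
      · rw [hdeg]
        exact (hd i).2
    have h4 := (card_le_card h2).trans card_biUnion_le
    rw [card_range] at h4
    have h5 := h4.trans (sum_le_sum fun i _ => h3 i)
    rw [sum_const, card_univ, Fintype.card_fin, smul_eq_mul] at h5
    omega

end

end Run7.h402.PV
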